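import Pool.Agent.helper81.WS.Spec
import Pool.Agent.helper85.PG.Basic
import Pool.Agent.helper43.PG.FNB

/-! Row ws:FIN (MP_f6e9a2_nt): the final theorem.  The proof follows `FND` of helper51. -/

set_option autoImplicit false

namespace Pool.Agent.WS

open Finset Module Pointwise

open Pool.Agent.helper85.PG (IsSys rr)

/-- the covering of `A` by translates of a system of the size of `C`. -/
theorem FIN_cov (hFRE : Pool.Agent.helper85.PG.FRE_stmt) (hCVR : Pool.Agent.helper85.PG.CVR_stmt)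
    (hPKC : Pool.Agent.helper85.PG.PKC_stmt) (K : ℝ) :
    ∃ (d : ℕ) (C₁ : ℝ), 1 ≤ C₁ ∧ ∀ (p : ℕ) [Fact p.Prime] (A C : Finset (ZMod p)), C.Nonempty →
      ((C + C).card : ℝ) ≤ K * (C.card : ℝ) →
      ∃ (P : ℝ → Finset (ZMod p)) (Y : Finset (ZMod p)), IsSys p d P ∧
        (Y.card : ℝ) * (C.card : ℝ) ≤ C₁ * ((A + C).card : ℝ) ∧
        ((P 1).card : ℝ) ≤ C₁ * (C.card : ℝ) ∧ (C.card : ℝ) ≤ C₁ * ((P 1).card : ℝ) ∧
        ∀ a ∈ A, ∃ y ∈ Y, a - y ∈ P 1 := by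
  obtain ⟨d, C, hC1, hF⟩ := hFRE K
  have hC0 : 0 < C := by linarith
  refine ⟨d, C ^ 2 + 5 ^ d * C + 1, by
    have h1 : 0 ≤ C ^ 2 := by positivity
    have h2 : 0 ≤ 5 ^ d * C := by positivity
    linarith, ?_⟩
  intro p _ A D hD hDK
  obtain ⟨P, F, hP, hFc, hPc, hDF⟩ := hF p D hD hDK
  obtain ⟨X, hXA, -, hXc, hXcard⟩ := hCVR p A D hD
  have hD0 : (0 : ℝ) < (D.card : ℝ) := by exact_mod_cast hD.card_pos
  have h2P : ((P 2).card : ℝ) ≤ 5 ^ d * ((P 1).card : ℝ) := by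
    have h := ((hPKC.2.2 p d P hP 2 1 (by norm_num) (by norm_num))).1
    norm_num at h
    exact h
  refine ⟨fun R => P (2 * R), X + F - F, hP.scale (by norm_num), ?_, ?_, ?_, ?_⟩
  · have h1 : ((X + F - F).card : ℝ) ≤ (X.card : ℝ) * (F.card : ℝ) * (F.card : ℝ) := by
      have h2 := (Finset.card_sub_le (s := X + F) (t := F)).trans
        (Nat.mul_le_mul_right _ (Finset.card_add_le (s := X) (t := F)))
      exact_mod_cast h2
    have h3 : (X.card : ℝ) * (D.card : ℝ) ≤ ((A + D).card : ℝ) := by exact_mod_cast hXcard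
    have hF0 : (0 : ℝ) ≤ (F.card : ℝ) := Nat.cast_nonneg _
    have hFF : (F.card : ℝ) * (F.card : ℝ) ≤ C * C := mul_le_mul hFc hFc hF0 hC0.le
    calc ((X + F - F).card : ℝ) * (D.card : ℝ)
        ≤ (X.card : ℝ) * (F.card : ℝ) * (F.card : ℝ) * (D.card : ℝ) :=
          mul_le_mul_of_nonneg_right h1 hD0.le
      _ = ((F.card : ℝ) * (F.card : ℝ)) * ((X.card : ℝ) * (D.card : ℝ)) := by ring
      _ ≤ (C * C) * ((A + D).card : ℝ) := mul_le_mul hFF h3 (by positivity) (by positivity)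
      _ = C ^ 2 * ((A + D).card : ℝ) := by ring
      _ ≤ (C ^ 2 + 5 ^ d * C + 1) * ((A + D).card : ℝ) := by
          refine mul_le_mul_of_nonneg_right ?_ (Nat.cast_nonneg _)
          have : 0 ≤ 5 ^ d * C := by positivity
          linarith
  · show ((P (2 * 1)).card : ℝ) ≤ _
    rw [mul_one]
    calc ((P 2).card : ℝ) ≤ 5 ^ d * ((P 1).card : ℝ) := h2P
      _ ≤ 5 ^ d * (C * (D.card : ℝ)) := mul_le_mul_of_nonneg_left hPc (by positivity)
      _ = (5 ^ d * C) * (D.card : ℝ) := by ring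
      _ ≤ (C ^ 2 + 5 ^ d * C + 1) * (D.card : ℝ) := by
          refine mul_le_mul_of_nonneg_right ?_ (Nat.cast_nonneg _)
          have : 0 ≤ C ^ 2 := by positivity
          linarith
  · show (D.card : ℝ) ≤ _ * ((P (2 * 1)).card : ℝ)
    rw [mul_one]
    have h1 : (D.card : ℝ) ≤ (F.card : ℝ) * ((P 1).card : ℝ) := by
      exact_mod_cast Pool.Agent.helper85.PG.FNB_card D (P 1) F hDF
    have h2 : ((P 1).card : ℝ) ≤ ((P 2).card : ℝ) := by
      exact_mod_cast Finset.card_le_card (hP.mono (by norm_num : (1 : ℝ) ≤ 2))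
    have h5 : (1 : ℝ) ≤ 5 ^ d := one_le_pow₀ (by norm_num)
    have h6 : C ≤ 5 ^ d * C := le_mul_of_one_le_left hC0.le h5
    calc (D.card : ℝ) ≤ (F.card : ℝ) * ((P 1).card : ℝ) := h1
      _ ≤ C * ((P 2).card : ℝ) := mul_le_mul hFc h2 (Nat.cast_nonneg _) hC0.le
      _ ≤ (C ^ 2 + 5 ^ d * C + 1) * ((P 2).card : ℝ) := by
          refine mul_le_mul_of_nonneg_right ?_ (Nat.cast_nonneg _)
          have : 0 ≤ C ^ 2 := by positivity
          linarith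
  · intro a ha
    obtain ⟨x, hx, v, hv, v', hv', hax⟩ := hXc a ha
    obtain ⟨f, hf, hfP⟩ := hDF v hv
    obtain ⟨f', hf', hfP'⟩ := hDF v' hv'
    refine ⟨x + f' - f, Finset.sub_mem_sub (Finset.add_mem_add hx hf') hf, ?_⟩
    show _ ∈ P (2 * 1)
    have h1 : a - (x + f' - f) = (v' - f') - (v - f) := by
      have h2 : a = x + v' - v := by rw [← hax]; ring
      rw [h2]; ring
    rw [h1]
    have h3 := hP.sub_mem hfP' hfP
    norm_num at h3
    rw [mul_one]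
    exact h3

/-- the sum over `A` is at most the sum over the translates -/
theorem FIN_sum {p : ℕ} (A Y P : Finset (ZMod p)) (g : ZMod p → ℝ) (hg : ∀ x, 0 ≤ g x)
    (h : ∀ a ∈ A, ∃ y ∈ Y, a - y ∈ P) : ∑ a ∈ A, g a ≤ ∑ y ∈ Y, ∑ a ∈ P, g (a + y) := by
  classical
  have h1 : A ⊆ (Y ×ˢ P).image (fun x => x.2 + x.1) := by
    intro a ha
    obtain ⟨y, hy, hay⟩ := h a ha
    exact mem_image.2 ⟨(y, a - y), mem_product.2 ⟨hy, hay⟩, sub_add_cancel a y⟩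
  calc ∑ a ∈ A, g a ≤ ∑ a ∈ (Y ×ˢ P).image (fun x => x.2 + x.1), g a :=
        sum_le_sum_of_subset_of_nonneg h1 fun x _ _ => hg x
    _ ≤ ∑ x ∈ Y ×ˢ P, g (x.2 + x.1) := by
        rw [← sum_fiberwise_of_maps_to (s := Y ×ˢ P) (t := (Y ×ˢ P).image (fun x => x.2 + x.1))
          (g := fun x => x.2 + x.1) (fun x hx => mem_image_of_mem _ hx)]
        refine sum_le_sum fun a ha => ?_
        obtain ⟨x, hx, hxa⟩ := mem_image.1 ha
        have h2 : g a = g (x.2 + x.1) := by rw [hxa]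
        rw [h2]
        exact single_le_sum (f := fun x : ZMod p × ZMod p => g (x.2 + x.1))
          (fun i _ => hg _) (mem_filter.2 ⟨hx, hxa⟩)
    _ = ∑ y ∈ Y, ∑ a ∈ P, g (a + y) := sum_product _ _ _

theorem FIN (hFRE : Pool.Agent.helper85.PG.FRE_stmt) (hCVR : Pool.Agent.helper85.PG.CVR_stmt)
    (hPKC : Pool.Agent.helper85.PG.PKC_stmt) (hCEL : CEL_stmt) : FIN_stmt := by
  intro K ε hε
  obtain ⟨d, C₁, hC₁, hcov⟩ := FIN_cov hFRE hCVR hPKC K
  have hC0 : 0 < C₁ := by linarith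
  obtain ⟨δ₂, p₁, hδ₂, hcel⟩ := hCEL d (ε / 2) (by positivity)
  obtain ⟨δ, hδ⟩ : ∃ δ : ℝ, δ = min (ε / 8) δ₂ / 4 := ⟨_, rfl⟩
  have hδ0 : 0 < δ := by rw [hδ]; exact div_pos (lt_min (by positivity) hδ₂) (by norm_num)
  have hδa : 4 * δ ≤ ε / 8 := by rw [hδ]; linarith [min_le_left (ε / 8) δ₂]
  have hδb : 4 * δ ≤ δ₂ := by rw [hδ]; linarith [min_le_right (ε / 8) δ₂]
  obtain ⟨p₂, hp₂⟩ := Pool.Agent.helper85.PG.FNB_large (ε / 4) (C₁ ^ 2) (by positivity)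
  obtain ⟨p₃, hp₃⟩ := Pool.Agent.helper85.PG.FNB_large (2 * δ) (C₁ ^ 2 * (1 + C₁)) (by positivity)
  refine ⟨δ, max (max p₁ p₂) p₃, hδ0, ?_⟩
  intro p _ hp A B C D hCn hDn hCK hDK hAC hCε hBD hBCD χ hχ β hβ
  have hp1' : p₁ ≤ p := ((le_max_left _ _).trans (le_max_left _ _)).trans hp.le
  have hp2' : p₂ ≤ p := ((le_max_right _ _).trans (le_max_left _ _)).trans hp.le
  have hp3' : p₃ ≤ p := (le_max_right _ _).trans hp.le
  have hK2 := hp₂ p hp2'
  have hK3 := hp₃ p hp3'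
  have hpp : (0 : ℝ) < p := Nat.cast_pos.2 (Fact.out : p.Prime).pos
  have hp1 : (1 : ℝ) ≤ p := by exact_mod_cast (Fact.out : p.Prime).one_lt.le
  have hpow : ∀ x : ℝ, 0 < (p : ℝ) ^ x := fun x => Real.rpow_pos_of_pos hpp x
  have hadd : ∀ x y : ℝ, (p : ℝ) ^ x * (p : ℝ) ^ y = (p : ℝ) ^ (x + y) := fun x y =>
    (Real.rpow_add hpp x y).symm
  have hmono : ∀ x y : ℝ, x ≤ y → (p : ℝ) ^ x ≤ (p : ℝ) ^ y := fun x y h =>
    Real.rpow_le_rpow_of_exponent_le hp1 h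
  rcases B.eq_empty_or_nonempty with hB | hBn
  · subst hB
    simp
  obtain ⟨P, Y, hP, hYc, hPc, hCP, hYA⟩ := hcov p A C hCn hCK
  obtain ⟨Q, Z, hQ, hZc, hQc, hDQ, hZB⟩ := hcov p B D hDn hDK
  have hBD0 : (0 : ℝ) < ((B + D).card : ℝ) := by exact_mod_cast (hBn.add hDn).card_pos
  have hB0 : (0 : ℝ) < (B.card : ℝ) := by exact_mod_cast hBn.card_pos
  have hD0 : (0 : ℝ) < (D.card : ℝ) := by exact_mod_cast hDn.card_pos
  have hCc0 : (0 : ℝ) < (C.card : ℝ) := by exact_mod_cast hCn.card_pos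
  obtain ⟨Θ, hΘ⟩ : ∃ Θ : ℝ, Θ = (B.card : ℝ) * D.card / (B + D).card := ⟨_, rfl⟩
  have hΘ0 : 0 < Θ := by rw [hΘ]; positivity
  have hΘε : (p : ℝ) ^ ε ≤ Θ := by
    rw [hΘ, le_div_iff₀ hBD0]
    exact hBD
  have hCC : C₁ ≤ C₁ ^ 2 := by nlinarith
  -- the sizes
  have hP1 : (p : ℝ) ^ (ε / 2) ≤ ((P 1).card : ℝ) := by
    have h1 : C₁ * (p : ℝ) ^ (ε / 2) ≤ C₁ * ((P 1).card : ℝ) := by
      calc C₁ * (p : ℝ) ^ (ε / 2) ≤ (p : ℝ) ^ (ε / 4) * (p : ℝ) ^ (ε / 2) :=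
            mul_le_mul_of_nonneg_right (hCC.trans hK2) (hpow _).le
        _ ≤ (p : ℝ) ^ ε := by
            rw [hadd]
            exact hmono _ _ (by linarith)
        _ ≤ C.card := hCε
        _ ≤ _ := hCP
    exact le_of_mul_le_mul_left h1 hC0
  -- the cells of `B`
  classical
  have hz : ∀ b : ZMod p, ∃ z : ZMod p, b ∈ B → z ∈ Z ∧ b - z ∈ Q 1 := by
    intro b
    by_cases hb : b ∈ B
    · obtain ⟨z, hz1, hz2⟩ := hZB b hb
      exact ⟨z, fun _ => ⟨hz1, hz2⟩⟩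
    · exact ⟨0, fun h => absurd h hb⟩
  choose zf hzf using hz
  have hmaps : ∀ b ∈ B, zf b ∈ Z := fun b hb => (hzf b hb).1
  have hnχ : ∀ x : ZMod p, ‖χ x‖ ≤ 1 := fun x => DirichletCharacter.norm_le_one (χ : DirichletCharacter ℂ p) x
  -- one cell
  have hcell : ∀ y z : ZMod p, ∑ a ∈ P 1, ‖∑ b ∈ B.filter (fun b => zf b = z), β b * χ (a + y + b)‖ ≤
      ((P 1).card : ℝ) * ((p : ℝ) ^ (-δ₂) * ((B.filter (fun b => zf b = z)).card : ℝ) +
        (p : ℝ) ^ (-(ε / 8)) * Θ) := by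
    intro y z
    obtain ⟨Bz, hBz⟩ : ∃ Bz, Bz = B.filter (fun b => zf b = z) := ⟨_, rfl⟩
    rw [← hBz]
    have hBz0 : (0 : ℝ) ≤ (Bz.card : ℝ) := Nat.cast_nonneg _
    by_cases hbig : (p : ℝ) ^ (-(ε / 8)) * Θ ≤ (Bz.card : ℝ)
    · -- CEL
      have hinj : Function.Injective (fun b : ZMod p => b + y) := add_left_injective y
      have hcard : (Bz.image (fun b => b + y)).card = Bz.card := card_image_of_injective _ hinj
      have h1 := hcel p hp1' P Q hP hQ (z + y) (Bz.image (fun b => b + y)) ?_ hP1 ?_ ?_ χ hχ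
        (fun b => β (b - y)) (fun b => hβ _)
      · rw [hcard] at h1
        have h2 : ∑ a ∈ P 1, ‖∑ b ∈ Bz, β b * χ (a + y + b)‖ =
            ∑ a ∈ P 1, ‖∑ b ∈ Bz.image (fun b => b + y), β (b - y) * χ (a + b)‖ := by
          refine sum_congr rfl fun a _ => ?_
          rw [sum_image (fun x _ x' _ h => hinj h)]
          congr 1
          refine sum_congr rfl fun b _ => ?_
          rw [add_sub_cancel_right, add_assoc a y b, add_comm y b]
        rw [h2]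
        refine h1.trans ?_
        have h3 : 0 ≤ ((P 1).card : ℝ) * ((p : ℝ) ^ (-(ε / 8)) * Θ) := by positivity
        calc (p : ℝ) ^ (-δ₂) * (((P 1).card : ℝ) * (Bz.card : ℝ)) =
              ((P 1).card : ℝ) * ((p : ℝ) ^ (-δ₂) * (Bz.card : ℝ)) := by ring
          _ ≤ _ := by
              rw [mul_add]
              linarith
      · intro b hb
        obtain ⟨b', hb', rfl⟩ := mem_image.1 hb
        rw [hBz, mem_filter] at hb'
        have h2 := (hzf b' hb'.1).2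
        rw [hb'.2] at h2
        have h3 : b' + y - (z + y) = b' - z := by ring
        change b' + y - (z + y) ∈ Q 1
        rw [h3]
        exact h2
      · rw [hcard]
        calc (p : ℝ) ^ (ε / 2) ≤ (p : ℝ) ^ (-(ε / 8)) * (p : ℝ) ^ ε := by
              rw [hadd]
              exact hmono _ _ (by linarith)
          _ ≤ (p : ℝ) ^ (-(ε / 8)) * Θ := mul_le_mul_of_nonneg_left hΘε (hpow _).le
          _ ≤ _ := hbig
      · rw [hcard]
        have h1 : ((p : ℝ) ^ (-(ε / 8)) * Θ) ^ 2 ≤ (Bz.card : ℝ) ^ 2 :=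
          pow_le_pow_left₀ (by positivity) hbig 2
        have h2 : (p : ℝ) ^ (1 / 2 + ε) * (D.card : ℝ) ≤ (C.card : ℝ) * Θ ^ 2 := by
          have e1 : (C.card : ℝ) * Θ ^ 2 = (C.card : ℝ) * D.card * (B.card : ℝ) ^ 2 *
              D.card / ((B + D).card : ℝ) ^ 2 := by
            rw [hΘ]
            ring
          rw [e1, le_div_iff₀ (by positivity)]
          calc (p : ℝ) ^ (1 / 2 + ε) * (D.card : ℝ) * ((B + D).card : ℝ) ^ 2 =
                ((p : ℝ) ^ (1 / 2 + ε) * ((B + D).card : ℝ) ^ 2) * D.card := by ring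
            _ ≤ ((C.card : ℝ) * D.card * (B.card : ℝ) ^ 2) * D.card :=
                mul_le_mul_of_nonneg_right hBCD hD0.le
        have h3 : C₁ ^ 2 * ((p : ℝ) ^ (1 / 2 + ε / 2) * ((Q 1).card : ℝ)) ≤
            C₁ ^ 2 * (((P 1).card : ℝ) * (Bz.card : ℝ) ^ 2) := by
          have e1 : ((p : ℝ) ^ (-(ε / 8))) ^ 2 = (p : ℝ) ^ (-(ε / 4)) := by
            rw [sq, hadd]
            congr 1
            ring
          calc C₁ ^ 2 * ((p : ℝ) ^ (1 / 2 + ε / 2) * ((Q 1).card : ℝ)) ≤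
                (p : ℝ) ^ (ε / 4) * ((p : ℝ) ^ (1 / 2 + ε / 2) * (C₁ * D.card)) := by
                gcongr
            _ = C₁ * (((p : ℝ) ^ (ε / 4) * (p : ℝ) ^ (1 / 2 + ε / 2)) * D.card) := by ring
            _ = C₁ * ((p : ℝ) ^ (-(ε / 4)) * ((p : ℝ) ^ (1 / 2 + ε) * D.card)) := by
                rw [hadd, ← mul_assoc ((p : ℝ) ^ (-(ε / 4))), hadd]
                congr 3
                ring
            _ ≤ C₁ * ((p : ℝ) ^ (-(ε / 4)) * ((C.card : ℝ) * Θ ^ 2)) := by gcongr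
            _ = C₁ * (C.card : ℝ) * (((p : ℝ) ^ (-(ε / 8))) ^ 2 * Θ ^ 2) := by
                rw [e1]
                ring
            _ = C₁ * (C.card : ℝ) * ((p : ℝ) ^ (-(ε / 8)) * Θ) ^ 2 := by ring
            _ ≤ C₁ * (C₁ * ((P 1).card : ℝ)) * (Bz.card : ℝ) ^ 2 := by gcongr
            _ = C₁ ^ 2 * (((P 1).card : ℝ) * (Bz.card : ℝ) ^ 2) := by ring
        exact le_of_mul_le_mul_left h3 (by positivity)
    · -- the trivial bound
      have h1 : ∀ a ∈ P 1, ‖∑ b ∈ Bz, β b * χ (a + y + b)‖ ≤ (Bz.card : ℝ) := by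
        intro a _
        refine (norm_sum_le _ _).trans ?_
        calc ∑ b ∈ Bz, ‖β b * χ (a + y + b)‖ ≤ ∑ b ∈ Bz, (1 : ℝ) := by
              refine sum_le_sum fun b _ => ?_
              rw [norm_mul]
              exact mul_le_one₀ (hβ b) (norm_nonneg _) (hnχ _)
          _ = (Bz.card : ℝ) := by simp
      refine (sum_le_sum h1).trans ?_
      rw [sum_const, nsmul_eq_mul]
      refine mul_le_mul_of_nonneg_left ?_ (Nat.cast_nonneg _)
      have h2 : 0 ≤ (p : ℝ) ^ (-δ₂) * (Bz.card : ℝ) := by positivity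
      linarith [not_le.1 hbig]
  -- the sum
  have hA := FIN_sum A Y (P 1) (fun a => ‖∑ b ∈ B, β b * χ (a + b)‖) (fun _ => norm_nonneg _) hYA
  have hsum : ∀ y ∈ Y, ∑ a ∈ P 1, ‖∑ b ∈ B, β b * χ (a + y + b)‖ ≤
      ((P 1).card : ℝ) * ((p : ℝ) ^ (-δ₂) * B.card + C₁ * (p : ℝ) ^ (-(ε / 8)) * B.card) := by
    intro y _
    have h1 : ∀ a, ∑ b ∈ B, β b * χ (a + y + b) =
        ∑ z ∈ Z, ∑ b ∈ B.filter (fun b => zf b = z), β b * χ (a + y + b) := fun a =>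
      (sum_fiberwise_of_maps_to hmaps _).symm
    calc ∑ a ∈ P 1, ‖∑ b ∈ B, β b * χ (a + y + b)‖ ≤
          ∑ a ∈ P 1, ∑ z ∈ Z, ‖∑ b ∈ B.filter (fun b => zf b = z), β b * χ (a + y + b)‖ := by
          refine sum_le_sum fun a _ => ?_
          rw [h1]
          exact norm_sum_le _ _
      _ = ∑ z ∈ Z, ∑ a ∈ P 1, ‖∑ b ∈ B.filter (fun b => zf b = z), β b * χ (a + y + b)‖ :=
          sum_comm
      _ ≤ ∑ z ∈ Z, ((P 1).card : ℝ) * ((p : ℝ) ^ (-δ₂) *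
          ((B.filter (fun b => zf b = z)).card : ℝ) + (p : ℝ) ^ (-(ε / 8)) * Θ) :=
          sum_le_sum fun z _ => hcell y z
      _ = ((P 1).card : ℝ) * ((p : ℝ) ^ (-δ₂) * B.card + (p : ℝ) ^ (-(ε / 8)) * (Z.card * Θ)) := by
          have h2 : (B.card : ℝ) = ∑ z ∈ Z, ((B.filter (fun b => zf b = z)).card : ℝ) := by
            exact_mod_cast card_eq_sum_card_fiberwise hmaps
          rw [← mul_sum, sum_add_distrib, ← mul_sum, ← h2, sum_const, nsmul_eq_mul]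
          ring
      _ ≤ _ := by
          refine mul_le_mul_of_nonneg_left ?_ (Nat.cast_nonneg _)
          have h3 : (Z.card : ℝ) * Θ ≤ C₁ * B.card := by
            rw [hΘ, ← mul_div_assoc, div_le_iff₀ hBD0]
            nlinarith
          have h4 := mul_le_mul_of_nonneg_left h3 (hpow (-(ε / 8))).le
          linarith
  have hYP : (Y.card : ℝ) * ((P 1).card : ℝ) ≤ C₁ ^ 2 * ((p : ℝ) ^ δ * A.card) := by
    calc (Y.card : ℝ) * ((P 1).card : ℝ) ≤ (Y.card : ℝ) * (C₁ * C.card) :=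
          mul_le_mul_of_nonneg_left hPc (Nat.cast_nonneg _)
      _ = C₁ * ((Y.card : ℝ) * C.card) := by ring
      _ ≤ C₁ * (C₁ * ((A + C).card : ℝ)) := mul_le_mul_of_nonneg_left hYc hC0.le
      _ ≤ C₁ * (C₁ * ((p : ℝ) ^ δ * A.card)) := by gcongr
      _ = _ := by ring
  have hfac : (p : ℝ) ^ (-δ₂) + C₁ * (p : ℝ) ^ (-(ε / 8)) ≤ (1 + C₁) * (p : ℝ) ^ (-(4 * δ)) := by
    have h1 : (p : ℝ) ^ (-δ₂) ≤ (p : ℝ) ^ (-(4 * δ)) := hmono _ _ (by linarith)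
    have h2 : (p : ℝ) ^ (-(ε / 8)) ≤ (p : ℝ) ^ (-(4 * δ)) := hmono _ _ (by linarith)
    nlinarith
  calc ∑ a ∈ A, ‖∑ b ∈ B, β b * χ (a + b)‖ ≤ ∑ y ∈ Y, ∑ a ∈ P 1, ‖∑ b ∈ B, β b * χ (a + y + b)‖ := hA
    _ ≤ ∑ y ∈ Y, ((P 1).card : ℝ) * ((p : ℝ) ^ (-δ₂) * B.card +
        C₁ * (p : ℝ) ^ (-(ε / 8)) * B.card) := sum_le_sum hsum
    _ = ((Y.card : ℝ) * ((P 1).card : ℝ)) *
        (((p : ℝ) ^ (-δ₂) + C₁ * (p : ℝ) ^ (-(ε / 8))) * B.card) := by
        rw [sum_const, nsmul_eq_mul]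
        ring
    _ ≤ (C₁ ^ 2 * ((p : ℝ) ^ δ * A.card)) * (((1 + C₁) * (p : ℝ) ^ (-(4 * δ))) * B.card) := by
        gcongr
    _ = (C₁ ^ 2 * (1 + C₁)) * ((p : ℝ) ^ δ * (p : ℝ) ^ (-(4 * δ))) * (A.card * B.card) := by ring
    _ ≤ (p : ℝ) ^ (2 * δ) * ((p : ℝ) ^ δ * (p : ℝ) ^ (-(4 * δ))) * (A.card * B.card) := by
        gcongr
    _ = (p : ℝ) ^ (-δ) * (A.card * B.card) := by
        rw [hadd, hadd]
        congr 2
        ring

end Pool.Agent.WS
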